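import Pool.Agent.Q294.SS.Abel

/-!
# Semisimplicity can be tested over abelian extensions

Let `M` be a motive over the number field `F` (or any object with a `p`-adic realization) and `V` its
`p`-adic realization.  The theorem says that the conjecture of Grothendieck and Serre for `V` can be
tested over an arbitrary abelian extension `E` of `F`, for instance over the maximal abelian extension
of `F` (that is, on the commutator subgroup of the Galois group), or over an extension `E` whose
Galois group over `F` contains an abelian subgroup of finite index (for instance the field generated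
by the points of `p`-power order of an abelian variety with potential complex multiplication), up to a
condition on one Frobenius element for every `ℤ_p`-extension.

**Theorem.** Let `F₁` be a finite extension of `F` and `E` an (infinite) abelian extension of `F₁`.
Suppose that `V` is a semisimple representation of the Galois group of `E`, and that for every
`ℤ_p`-extension `F_∞` of `F₁` which is contained in `E` there is a subgroup `D` of the Galois group of
`F₁`, for example the group generated by one Frobenius element or a decomposition group, which does
not fix `F_∞`, and such that `V` is a semisimple representation of `D`.  Then `V` is a semisimple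
representation of the Galois group of `F`.

There are only finitely many independent `ℤ_p`-extensions.  For example, if `E` is contained in the
field `F(μ)` generated by all roots of unity, or if `E` is abelian over `F`, `F` is totally real and
Leopoldt's conjecture is true for `F` and `p` (for instance `F = ℚ`), then the cyclotomic
`ℤ_p`-extension is the only one and `D` can be generated by a single element: the Frobenius element
of any place of good reduction not above `p` at which Frobenius acts semisimply on `V` (for instance
because the reduction is dominated by a product of curves or of abelian varieties).  If `E` contains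
no `ℤ_p`-extension of `F₁` then there is no condition.

Conversely, a semisimple representation of the Galois group of `F` is semisimple for every normal
subgroup (Clifford).

The proof: the first step treats the subgroup generated by the Galois group of `E` and all subgroups
`D` on which `V` is semisimple (conditional expectation to the commutant of a normal subgroup with
respect to the trace form, `Pool.Agent.Q294.SS.Grp`).  So the Galois group of `E` can be replaced by
a normal subgroup `N` for which the quotient `A` is abelian and has no nonzero continuous homomorphism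
to `ℚ_p`.  For a stable subspace `W` let `X` be the space of the endomorphisms of `V` which commute
with `N`, map `V` to `W` and are scalar on `W`.  The group `A` acts on `X` by commuting operators and
fixes the linear form `λ` given by the scalar.  A minimal stable subspace `Y` of `X` on which `λ` is
not zero is contained in the generalized invariants (Fitting); if `A` did not act trivially on `Y`
then a vector of `Y` that is not invariant, but invariant modulo the invariants, would give a nonzero
homomorphism from `A` to `ℚ_p`.  So there is an invariant element of `X` with `λ ≠ 0`, and its kernel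
is a stable complement of `W`.
-/

set_option autoImplicit false

namespace Pool.Agent.Results.MP_8f1292_ag.AbelianDescent

/-- the restriction of the representation `ρ` to the subgroup `H` is semisimple: every subspace that
is stable under `H` has a complement that is stable under `H` -/
def SemisimpleOn {K V Γ : Type} [Field K] [AddCommGroup V] [Module K V] [Group Γ]
    (ρ : Γ →* (V →ₗ[K] V)) (H : Subgroup Γ) : Prop :=
  ∀ W : Submodule K V, (∀ g ∈ H, ∀ w ∈ W, ρ g w ∈ W) →
    ∃ W' : Submodule K V, IsCompl W W' ∧ ∀ g ∈ H, ∀ w ∈ W', ρ g w ∈ W'

/-- a `ℤ_p`-extension of the intermediate field `F₁`: a continuous surjective homomorphism from the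
Galois group of `F₁` to `ℤ_p` (the extension is the fixed field of its kernel) -/
structure ZpExtension (p : ℕ) [Fact p.Prime] {F : Type} [Field F]
    (F₁ : IntermediateField F (AlgebraicClosure F)) where
  f : F₁.fixingSubgroup → ℤ_[p]
  mul : ∀ σ τ, f (σ * τ) = f σ + f τ
  continuous : Continuous f
  surjective : Function.Surjective f

section

variable {p : ℕ} [Fact p.Prime] {F : Type} [Field F] {F₁ : IntermediateField F (AlgebraicClosure F)}

/-- the `ℤ_p`-extension is fixed by the elements of `D` -/
def FixedBy (Z : ZpExtension p F₁) (D : Subgroup Gal(AlgebraicClosure F/F)) : Prop :=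
  ∀ σ, ∀ h : σ ∈ F₁.fixingSubgroup, σ ∈ D → Z.f ⟨σ, h⟩ = 0

/-- the `ℤ_p`-extension is contained in `E` -/
def ContainedIn (Z : ZpExtension p F₁) (E : IntermediateField F (AlgebraicClosure F)) : Prop :=
  FixedBy Z E.fixingSubgroup

/-- the extension `E` of `F₁` is abelian -/
def Abelian (F₁ E : IntermediateField F (AlgebraicClosure F)) : Prop :=
  F₁ ≤ E ∧ ∀ σ ∈ F₁.fixingSubgroup, ∀ τ ∈ F₁.fixingSubgroup,
    σ * τ * σ⁻¹ * τ⁻¹ ∈ E.fixingSubgroup

end

open Pool.Agent.Q294.SS in
theorem result {F : Type} [Field F] [NumberField F] {p : ℕ} [Fact p.Prime] {V : Type}
    [AddCommGroup V] [Module ℚ_[p] V] [FiniteDimensional ℚ_[p] V]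
    (ρ : Gal(AlgebraicClosure F/F) →* (V →ₗ[ℚ_[p]] V))
    (hρ : ∀ (φ : V →ₗ[ℚ_[p]] ℚ_[p]) (x : V), Continuous fun g => φ (ρ g x))
    (F₁ E : IntermediateField F (AlgebraicClosure F)) (hF₁ : FiniteDimensional F F₁)
    (hE : Abelian F₁ E) (hV : SemisimpleOn ρ E.fixingSubgroup)
    (hZ : ∀ Z : ZpExtension p F₁, ContainedIn Z E →
      ∃ D ≤ F₁.fixingSubgroup, SemisimpleOn ρ D ∧ ¬ FixedBy Z D) :
    SemisimpleOn ρ ⊤ := by
  have hfin : F₁.fixingSubgroup.FiniteIndex := by
    refine ⟨?_⟩
    rw [← IntermediateField.finrank_eq_fixingSubgroup_index]
    exact Module.finrank_pos.ne'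
  have hEF : E.fixingSubgroup ≤ F₁.fixingSubgroup := IntermediateField.fixingSubgroup_le hE.1
  have hcpt : CompactSpace F₁.fixingSubgroup :=
    isCompact_iff_compactSpace.1 (IntermediateField.fixingSubgroup_isClosed F₁).isCompact
  have hsub : ∀ D ≤ F₁.fixingSubgroup, SemisimpleOn ρ D →
      SemiOn (ρ.comp F₁.fixingSubgroup.subtype) (D.subgroupOf F₁.fixingSubgroup) := by
    intro D hD h W hW
    obtain ⟨W', h4, h5⟩ := h W (fun g hg w hw => hW ⟨g, hD hg⟩ hg w hw)
    exact ⟨W', h4, fun g hg w hw => h5 g hg w hw⟩
  have hmain : SemiOn (ρ.comp F₁.fixingSubgroup.subtype) (⊤ : Subgroup F₁.fixingSubgroup) := by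
    refine semi_main _ (fun φ x => (hρ φ x).comp continuous_subtype_val)
      (N := E.fixingSubgroup.subgroupOf F₁.fixingSubgroup)
      (fun g h => hE.2 g g.2 h h.2) (hsub _ hEF hV)
      {D | SemiOn (ρ.comp F₁.fixingSubgroup.subtype) D} (fun D hD => hD) ?_
    intro f hf1 hf2 hf3 hf4
    by_contra hne
    push Not at hne
    obtain ⟨g₁, hg₁⟩ := hne
    obtain ⟨g₀, -, hg₀⟩ := (isCompact_univ (X := F₁.fixingSubgroup)).exists_isMaxOn
      ⟨1, trivial⟩ (hf1.norm.continuousOn)
    have hmax : ∀ g, ‖f g‖ ≤ ‖f g₀‖ := fun g => hg₀ (Set.mem_univ g)
    have hf0 : f g₀ ≠ 0 := by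
      intro h
      have := hmax g₁
      rw [h, norm_zero] at this
      exact hg₁ (norm_le_zero_iff.1 this)
    have hn : ∀ g, ‖f g / f g₀‖ ≤ 1 := by
      intro g
      rw [norm_div]
      exact div_le_one_of_le₀ (hmax g) (norm_nonneg _)
    let Z : ZpExtension p F₁ :=
      { f := fun g => ⟨f g / f g₀, hn g⟩
        mul := fun σ τ => by
          apply Subtype.ext
          show f (σ * τ) / f g₀ = f σ / f g₀ + f τ / f g₀
          rw [hf2, add_div]
        continuous := (hf1.div_const _).subtype_mk _
        surjective := by
          have h1 : IsClosed (Set.range fun g => (⟨f g / f g₀, hn g⟩ : ℤ_[p])) :=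
            (isCompact_range ((hf1.div_const _).subtype_mk _)).isClosed
          have h2 : ∀ n : ℕ, f (g₀ ^ n) = n * f g₀ := by
            intro n
            induction n with
            | zero =>
              have h3 := hf2 1 1
              rw [mul_one] at h3
              rw [pow_zero, Nat.cast_zero, zero_mul]
              exact left_eq_add.1 h3
            | succ n ih =>
              rw [pow_succ, hf2, ih]
              push_cast
              ring
          have h4 : Set.range (Nat.cast : ℕ → ℤ_[p]) ⊆
              Set.range fun g => (⟨f g / f g₀, hn g⟩ : ℤ_[p]) := by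
            rintro _ ⟨n, rfl⟩
            refine ⟨g₀ ^ n, ?_⟩
            apply Subtype.ext
            show f (g₀ ^ n) / f g₀ = ((n : ℤ_[p]) : ℚ_[p])
            rw [h2, mul_div_assoc, div_self hf0, mul_one]
            simp
          have h5 : closure (Set.range (Nat.cast : ℕ → ℤ_[p])) = Set.univ :=
            PadicInt.denseRange_natCast.closure_range
          intro x
          have h6 : x ∈ closure (Set.range (Nat.cast : ℕ → ℤ_[p])) := by
            rw [h5]; trivial
          exact h1.closure_subset_iff.2 h4 h6 }
    have hZf : ∀ g, f g = 0 ↔ Z.f g = 0 := by
      intro g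
      constructor
      · intro h
        apply Subtype.ext
        show f g / f g₀ = 0
        rw [h, zero_div]
      · intro h
        have h1 : f g / f g₀ = 0 := congrArg Subtype.val h
        rcases div_eq_zero_iff.1 h1 with h2 | h2
        · exact h2
        · exact absurd h2 hf0
    obtain ⟨D, hD1, hD2, hD3⟩ := hZ Z (fun σ h hσ => (hZf _).1 (hf3 _ hσ))
    exact hD3 fun σ h hσ => (hZf _).1 (hf4 _ (hsub D hD1 hD2) _ hσ)
  refine semi_of_finiteIndex ρ hfin ?_
  intro W hW
  obtain ⟨W', h5, h6⟩ := hmain W (fun g _ w hw => hW g g.2 w hw)
  exact ⟨W', h5, fun g hg w hw => h6 ⟨g, hg⟩ trivial w hw⟩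

end Pool.Agent.Results.MP_8f1292_ag.AbelianDescent
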