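import Pool.Agent.Q128.TS.Pos
import Pool.Agent.Results.MP_8f1292_ag.RelationFreeFrobenius

/-!
# Semisimplicity for all `ℓ` at once, for almost all members of a family

Let `X` be a smooth projective family over an open subset `D ≠ 0` of the affine space of dimension `r`
over `𝓞 F[1/N]`, `F` a number field, for example the complete intersections with given degrees with all
coefficients as parameters. For the integral points `t ∈ ℤ^r` (or, after a choice of a basis, `𝓞 F`-valued
points) with `D(t) ≠ 0` the members `X_t` are smooth projective varieties over `F`; `M_t` is their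
cohomology of degree `w`, or a part of it cut out by a projector with coefficients in a number field `E`,
for example the primitive or the transcendental part. For every `ℓ` (every finite place of `E`) there
is a representation `ρ_{ℓ, t}` of the absolute Galois group of `F`, and the Frobenius polynomials at
the places above a prime number `p` depend only on the residue class of `t` modulo `p`. The conjecture
of Grothendieck and Serre says that all `ρ_{ℓ, t}` are semisimple.

**Theorem.** Let `δ_k(p)` be the proportion of the residue classes in `(ℤ/p)^r` for which the family is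
smooth at all places above `p` and the Frobenius polynomials at these places have no isotropic
relation of size `k` (definitions of the starting file `RelationFreeFrobenius`), and suppose that
the sum of `δ_k(p)` over the unramified primes `p ≤ 2 √H` is at least `s` for all `1 ≤ k ≤ n / 2`. Then for
all but `C(n, r) H^r / s` of the integral points `t` with `|t_j| ≤ H` the representations
`ρ_{ℓ, t}` are semisimple **for all `ℓ`**. In particular, if `δ_k(p) ≥ c > 0` for all large `p`, then the number
of exceptions is `O(H^{r - 1/2} log H)`.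

For instance, by the equidistribution theorem of Deligne and Katz the condition `δ_k(p) ≥ c` holds if
the geometric monodromy group of the family is a full symplectic or orthogonal group of large rank.
The exceptional set does not depend on `ℓ`. For one fixed `ℓ` exceptional sets of this size can be
found with Hilbert's irreducibility theorem (if one member is known to be semisimple for this
`ℓ`), but these sets depend on `ℓ`, and their union over all `ℓ` could be everything.

The proof combines the criterion of the starting file `RelationFreeFrobenius` (based on the theorem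
of Kronecker and Weber and the `ℓ`-adic six exponentials theorem) at four primes with a sieve of
Turán type in several variables (`Q128.TS`, from a large sieve in several variables).
-/

set_option autoImplicit false

namespace Pool.Agent.Results.MP_8f1292_ag.AlmostAllMembers

open NumberField IsDedekindDomain Polynomial
open Pool.Agent.Results.MP_8f1292_ag.RelationFreeFrobenius

/-- The residue class modulo `p` of an integral point `t`. -/
def red {r : ℕ} (p : ℕ) (t : Fin r → ℤ) : Fin r → ZMod p := fun j => (t j : ZMod p)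

section
variable (F E : Type) [Field F] [NumberField F] [Field E] [NumberField E] (ι : E →+* ℂ)
  (r n : ℕ) (w : ℤ) (J : Type) (ℓ : J → ℕ) [∀ j, Fact (ℓ j).Prime] (𝕂 : J → Type)
  [∀ j, NormedField (𝕂 j)] [∀ j, NormedAlgebra ℚ_[ℓ j] (𝕂 j)] (τ : ∀ j, E →+* 𝕂 j)

/-- A family of motives over the number field `F` with `r` integral parameters: for every integral
point `t` in a set `U ⊆ ℤ^r` and every `j ∈ J` a continuous polarized representation `ρ j t` of the
absolute Galois group of `F` of dimension `n` over the field `𝕂 j` of characteristic zero which contains the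
`ℓ j`-adic numbers (`J` can be the set of all prime numbers, or of all finite places of `E`). For
every prime number `p` there is a set `good p` of residue classes modulo `p`; the integral points in
these classes belong to `U`, and at the places `v` above `p` their representations are good for
all `ℓ j ≠ p`, pure of weight `w`, with a Frobenius polynomial `P p x v` which depends only on the
residue class `x` modulo `p` of the integral point (and not on `j`). -/
structure Family where
  U : Set (Fin r → ℤ)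
  good : ∀ p : ℕ, Set (Fin r → ZMod p)
  mem : ∀ p : ℕ, p.Prime → ∀ t : Fin r → ℤ, red p t ∈ good p → t ∈ U
  P : ∀ p : ℕ, (Fin r → ZMod p) → HeightOneSpectrum (𝓞 F) → E[X]
  ρ : ∀ j : J, (Fin r → ℤ) → (Gal(AlgebraicClosure F/F) →* GL (Fin n) (𝕂 j))
  continuous : ∀ j, ∀ t ∈ U, Continuous (ρ j t)
  polarized : ∀ j, ∀ t ∈ U, Polarized (ℓ j) (ρ j t) w
  goodAt : ∀ p : ℕ, p.Prime → ∀ j, p ≠ ℓ j → ∀ t : Fin r → ℤ, red p t ∈ good p →
    ∀ v : HeightOneSpectrum (𝓞 F), Above v p → GoodAt (ρ j t) (τ j) ι w v (P p (red p t) v)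

end

section
variable {F E : Type} [Field F] [NumberField F] [Field E] [NumberField E] {ι : E →+* ℂ}
  {r n : ℕ} {w : ℤ} {J : Type} {ℓ : J → ℕ} [∀ j, Fact (ℓ j).Prime] {𝕂 : J → Type}
  [∀ j, NormedField (𝕂 j)] [∀ j, NormedAlgebra ℚ_[ℓ j] (𝕂 j)] {τ : ∀ j, E →+* 𝕂 j}

/-- The good residue classes modulo `p` whose Frobenius polynomials at the places above `p` have no
isotropic relation of size `k`. -/
def relationFree (A : Family F E ι r n w J ℓ 𝕂 τ) (k p : ℕ) : Set (Fin r → ZMod p) :=
  {x | x ∈ A.good p ∧ ¬ IsotropicRelation (A.P p x) ι w p k}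

variable (F) in
open Classical in
/-- The prime numbers `p ≤ 2 √H` which are unramified in `F`. -/
noncomputable def primes (H : ℕ) : Finset ℕ :=
  (Finset.range (4 * H + 1)).filter fun p => p.Prime ∧ p * p ≤ 4 * H ∧ UnramifiedIn F p

/-- The sum over the unramified primes `p ≤ 2 √H` of the proportion of the residue classes in
`(ℤ/p)^r` which are good and without isotropic relation of size `k`. -/
noncomputable def mass (A : Family F E ι r n w J ℓ 𝕂 τ) (k H : ℕ) : ℝ :=
  ∑ p ∈ primes F H, ((relationFree A k p).ncard : ℝ) / (p : ℝ) ^ r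

/-- The integral points `t` with `|t_j| ≤ H` which are not in `U`, or for which one of the
representations `ρ j t` is not semisimple. -/
def exceptions (A : Family F E ι r n w J ℓ 𝕂 τ) (H : ℕ) : Set (Fin r → ℤ) :=
  {t | (∀ i, |t i| ≤ (H : ℤ)) ∧ ¬ (t ∈ A.U ∧ ∀ j, Semisimple (A.ρ j t))}

lemma primes_eq (H : ℕ) : primes F H = Pool.Agent.Q128.TS.pr (UnramifiedIn F) H := by
  ext p
  classical
  rw [Pool.Agent.Q128.TS.mem_pr, primes, Finset.mem_filter, Finset.mem_range]
  constructor
  · exact fun h => h.2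
  · intro h
    refine ⟨?_, h⟩
    have h1 := h.1.one_lt
    nlinarith [h.2.1]

/-- the set of the points with at most three good relation free primes -/
def few (A : Family F E ι r n w J ℓ 𝕂 τ) (H k : ℕ) : Set (Fin r → ℤ) :=
  {t | (∀ i, |t i| ≤ (H : ℤ)) ∧ Set.ncard {p : ℕ | p ∈ primes F H ∧ red p t ∈ relationFree A k p} ≤ 3}

/-- there is only one prime number below a place -/
lemma above_unique {v : HeightOneSpectrum (𝓞 F)} {p p' : ℕ} (hp : p.Prime) (hp' : p'.Prime)
    (h : Above v p) (h' : Above v p') : p = p' := by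
  by_contra hne
  have hc : IsCoprime (p : ℤ) (p' : ℤ) := Nat.isCoprime_iff_coprime.2 ((Nat.coprime_primes hp hp').2 hne)
  obtain ⟨a, b, hab⟩ := hc
  apply v.isPrime.ne_top
  rw [Ideal.eq_top_iff_one]
  have h1 : (a : 𝓞 F) * (p : 𝓞 F) + (b : 𝓞 F) * (p' : 𝓞 F) = 1 := by
    have h2 := congrArg (Int.cast : ℤ → 𝓞 F) hab
    push_cast at h2
    exact h2
  rw [← h1]
  exact v.asIdeal.add_mem (v.asIdeal.mul_mem_left _ h) (v.asIdeal.mul_mem_left _ h')

lemma isotropic_congr {P P' : HeightOneSpectrum (𝓞 F) → E[X]} {p k : ℕ}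
    (h : ∀ v, Above v p → P v = P' v) (hP : IsotropicRelation P ι w p k) :
    IsotropicRelation P' ι w p k := by
  obtain ⟨A, hA, hA'⟩ := hP
  refine ⟨A, hA, fun v hv => ?_⟩
  rw [← h v hv]
  exact hA' v hv

lemma exceptions_subset (hn : 2 ≤ n) [∀ j, FiniteDimensional ℚ_[ℓ j] (𝕂 j)]
    (A : Family F E ι r n w J ℓ 𝕂 τ) (H : ℕ) :
    exceptions A H ⊆ ⋃ k ∈ Finset.Icc 1 (n / 2), few A H k := by
  classical
  intro t ht
  obtain ⟨ht1, ht2⟩ := ht
  by_contra hcon
  simp only [Set.mem_iUnion, Finset.mem_Icc, not_exists] at hcon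
  have hmany : ∀ k, 0 < k → 2 * k ≤ n →
      3 < Set.ncard {p : ℕ | p ∈ primes F H ∧ red p t ∈ relationFree A k p} := by
    intro k hk hk2
    by_contra h
    exact hcon k ⟨hk, by omega⟩ ⟨ht1, not_lt.1 h⟩
  have hfin : ∀ k, {p : ℕ | p ∈ primes F H ∧ red p t ∈ relationFree A k p}.Finite := fun k =>
    (primes F H).finite_toSet.subset fun p hp => hp.1
  apply ht2
  have hprime : ∀ p ∈ primes F H, p.Prime ∧ UnramifiedIn F p := by
    intro p hp
    rw [primes, Finset.mem_filter] at hp
    exact ⟨hp.2.1, hp.2.2.2⟩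
  constructor
  · have h1 := hmany 1 one_pos (by omega)
    obtain ⟨p, hp⟩ := (Set.ncard_pos (hfin 1)).1 (by omega)
    exact A.mem p (hprime p hp.1).1 t hp.2.1
  · intro j
    set T : Set ℕ := {p | p ≠ ℓ j ∧ ∃ k, 0 < k ∧ 2 * k ≤ n ∧ p ∈ primes F H ∧
      red p t ∈ relationFree A k p} with hT
    have hTfin : T.Finite := (primes F H).finite_toSet.subset fun p hp => by
      obtain ⟨_, k, _, _, h, _⟩ := hp
      exact h
    have hsub : ∀ k, 0 < k → 2 * k ≤ n →
        {p : ℕ | p ∈ primes F H ∧ red p t ∈ relationFree A k p} \ {ℓ j} ⊆ T := by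
      rintro k hk hk2 p ⟨hp, hpl⟩
      exact ⟨hpl, k, hk, hk2, hp.1, hp.2⟩
    have hcard : ∀ k, 0 < k → 2 * k ≤ n →
        3 ≤ ({p : ℕ | p ∈ primes F H ∧ red p t ∈ relationFree A k p} \ {ℓ j}).ncard := by
      intro k hk hk2
      have h1 := hmany k hk hk2
      have h3 := Set.ncard_le_ncard_sdiff_add_ncard
        {p : ℕ | p ∈ primes F H ∧ red p t ∈ relationFree A k p} {ℓ j} (Set.finite_singleton _)
      rw [Set.ncard_singleton] at h3
      omega
    have hTU : t ∈ A.U := by
      have h1 := hmany 1 one_pos (by omega)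
      obtain ⟨p, hp⟩ := (Set.ncard_pos (hfin 1)).1 (by omega)
      exact A.mem p (hprime p hp.1).1 t hp.2.1
    have hTp : ∀ p ∈ T, p.Prime ∧ p ≠ ℓ j ∧ UnramifiedIn F p ∧ red p t ∈ A.good p := by
      rintro p ⟨h1, k, _, _, h2, h3⟩
      exact ⟨(hprime p h2).1, h1, (hprime p h2).2, h3.1⟩
    set Pt : HeightOneSpectrum (𝓞 F) → E[X] := fun v =>
      if h : ∃ p, p ∈ T ∧ Above v p then A.P h.choose (red h.choose t) v else 0 with hPt
    have hPt' : ∀ p ∈ T, ∀ v, Above v p → Pt v = A.P p (red p t) v := by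
      intro p hp v hv
      have h : ∃ p, p ∈ T ∧ Above v p := ⟨p, hp, hv⟩
      have h1 : h.choose = p :=
        above_unique (hTp _ h.choose_spec.1).1 (hTp p hp).1 h.choose_spec.2 hv
      rw [hPt]
      simp only [dif_pos h]
      rw [h1]
    refine RelationFreeFrobenius.result (ℓ j) (A.ρ j t) (A.continuous j t hTU) (τ j) ι w Pt T
      ?_ (fun p hp => ⟨(hTp p hp).1, (hTp p hp).2.1, (hTp p hp).2.2.1⟩) ?_
      (A.polarized j t hTU) (Or.inl ?_)
    · have h1 : 3 ≤ T.ncard := (hcard 1 one_pos (by omega)).trans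
        (Set.ncard_le_ncard (hsub 1 one_pos (by omega)) hTfin)
      rw [← Set.Finite.cast_ncard_eq hTfin]
      exact_mod_cast h1
    · intro p hp v hv
      rw [hPt' p hp v hv]
      exact A.goodAt p (hTp p hp).1 j (hTp p hp).2.1 t (hTp p hp).2.2.2 v hv
    · intro k hk hk2
      have h1 := hcard k hk hk2
      have h2 : 0 < ({p : ℕ | p ∈ primes F H ∧ red p t ∈ relationFree A k p} \ {ℓ j}).ncard :=
        lt_of_lt_of_le (by norm_num) h1
      obtain ⟨p, hp⟩ := (Set.ncard_pos (hfin k).sdiff).1 h2
      refine ⟨p, hsub k hk hk2 hp, fun hrel => hp.1.2.2 ?_⟩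
      exact isotropic_congr (hPt' p (hsub k hk hk2 hp)) hrel

/-- **Semisimplicity for all `ℓ` at once, for almost all members of a family.** -/
theorem result {F E : Type} [Field F] [NumberField F] [Field E] [NumberField E] {ι : E →+* ℂ}
    {r n : ℕ} (hn : 2 ≤ n) {w : ℤ} {J : Type} {ℓ : J → ℕ} [∀ j, Fact (ℓ j).Prime] {𝕂 : J → Type}
    [∀ j, NormedField (𝕂 j)] [∀ j, NormedAlgebra ℚ_[ℓ j] (𝕂 j)]
    [∀ j, FiniteDimensional ℚ_[ℓ j] (𝕂 j)] {τ : ∀ j, E →+* 𝕂 j}
    (A : Family F E ι r n w J ℓ 𝕂 τ) :
    (∀ (H : ℕ) (s : ℝ), 1 ≤ H → 0 < s → (∀ k, 0 < k → 2 * k ≤ n → s ≤ mass A k H) →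
      ((exceptions A H).ncard : ℝ) ≤ n * (4 * 10 ^ r + 6) * (3 * (H : ℝ)) ^ r / s) ∧
    ∀ (c : ℝ) (m : ℕ), 0 < c → (∀ p : ℕ, p.Prime → m ≤ p → UnramifiedIn F p ∧
        ∀ k, 0 < k → 2 * k ≤ n → c * (p : ℝ) ^ r ≤ ((relationFree A k p).ncard : ℝ)) →
      ∃ C : ℝ, ∀ H : ℕ, 2 ≤ H →
        ((exceptions A H).ncard : ℝ) ≤ C * ((H : ℝ) ^ r * Real.log H / Real.sqrt H) := by
  classical
  have hsum : ∀ H : ℕ, 1 ≤ H → ((exceptions A H).ncard : ℝ) ≤
      ∑ k ∈ Finset.Icc 1 (n / 2), ((few A H k).ncard : ℝ) := by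
    intro H hH
    have h1 := Finset.set_ncard_biUnion_le (Finset.Icc 1 (n / 2)) (few A H)
    have hfin : (⋃ k ∈ Finset.Icc 1 (n / 2), few A H k).Finite := by
      refine (Finset.finite_toSet _).biUnion' ?_
      intro k _
      exact (Pool.Agent.Q128.TS.ncard_cube_le hH _ fun t ht => ht.1).2
    have h2 := (Set.ncard_le_ncard (exceptions_subset hn A H) hfin).trans h1
    exact_mod_cast h2
  constructor
  · intro H s hH hs hmass
    have hk : ∀ k ∈ Finset.Icc 1 (n / 2), ((few A H k).ncard : ℝ) ≤
        (4 * 10 ^ r + 6) * (3 * (H : ℝ)) ^ r / s := by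
      intro k hk
      rw [Finset.mem_Icc] at hk
      rw [le_div_iff₀ hs]
      have h1 := Pool.Agent.Q128.TS.few (r := r) 3 (primes F H) (fun p hp => by
          rw [primes, Finset.mem_filter] at hp
          exact hp.2.1) H hH (fun p hp => by
          rw [primes, Finset.mem_filter] at hp
          exact hp.2.2.1) (relationFree A k)
      have h2 := hmass k (by omega) (by omega)
      calc ((few A H k).ncard : ℝ) * s ≤ ((few A H k).ncard : ℝ) * mass A k H := by gcongr
        _ ≤ (4 * 10 ^ r + 2 * (3 : ℕ)) * (3 * (H : ℝ)) ^ r := h1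
        _ = _ := by norm_num
    have h3 : ((n / 2 : ℕ) : ℝ) ≤ n := by exact_mod_cast Nat.div_le_self n 2
    calc ((exceptions A H).ncard : ℝ) ≤ ∑ k ∈ Finset.Icc 1 (n / 2), ((few A H k).ncard : ℝ) :=
          hsum H hH
      _ ≤ ∑ _k ∈ Finset.Icc 1 (n / 2), (4 * 10 ^ r + 6) * (3 * (H : ℝ)) ^ r / s :=
          Finset.sum_le_sum hk
      _ = ((n / 2 : ℕ) : ℝ) * ((4 * 10 ^ r + 6) * (3 * (H : ℝ)) ^ r / s) := by
          rw [Finset.sum_const, Nat.card_Icc, nsmul_eq_mul, Nat.add_sub_cancel]
      _ ≤ (n : ℝ) * ((4 * 10 ^ r + 6) * (3 * (H : ℝ)) ^ r / s) := by gcongr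
      _ = _ := by ring
  · intro c m hc hm
    have hex : ∀ k ∈ Finset.Icc 1 (n / 2), ∃ C : ℝ, 0 ≤ C ∧ ∀ H : ℕ, 2 ≤ H →
        ((few A H k).ncard : ℝ) ≤ C * ((H : ℝ) ^ r * Real.log H / Real.sqrt H) := by
      intro k hk
      rw [Finset.mem_Icc] at hk
      obtain ⟨C, hC0, hC⟩ := Pool.Agent.Q128.TS.few_pos (r := r) 3 (UnramifiedIn F) m
        (fun p hp hmp => (hm p hp hmp).1) c hc (relationFree A k)
        fun p hp hmp => (hm p hp hmp).2 k (by omega) (by omega)
      refine ⟨C, hC0, fun H hH => ?_⟩
      have h1 := hC H hH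
      simp only [← primes_eq] at h1
      exact h1
    choose! C hC0 hC using hex
    refine ⟨∑ k ∈ Finset.Icc 1 (n / 2), C k, fun H hH => ?_⟩
    refine (hsum H (by omega)).trans ?_
    rw [Finset.sum_mul]
    exact Finset.sum_le_sum fun k hk => hC k hk H hH

end

end Pool.Agent.Results.MP_8f1292_ag.AlmostAllMembers
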