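import Pool.Agent.Q328.VD.Many
import Pool.Agent.Results.MP_8f1292_ag.RelationFreeFrobenius

/-!
# Semisimplicity for all `ℓ` at once for the members of a family near every integral point, few digits being changed

Let `X` be a smooth projective family over an open subset `D ≠ 0` of the affine space of dimension `d` over `𝓞 F[1/N]`, `F` a
number field, for example the complete intersections with given degrees with all coefficients as parameters, and `M_t` the
cohomology of degree `w` of the members, or a part of it. For every `ℓ` there is a representation `ρ_{ℓ, t}` of the absolute Galois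
group of `F`, and the Frobenius polynomials at the places above a prime number `p` depend only on the residue class of `t` modulo
`p`. The conjecture of Grothendieck and Serre says that all `ρ_{ℓ, t}` are semisimple.

**Theorem.** Suppose that there is a set `P` of prime numbers, unramified in `F`, with at least `y ^ θ` elements up to `y` for large
`y`, such that for all `p ∈ P` and `1 ≤ k ≤ n / 2` a proportion at least `κ > 0` of the residue classes modulo `p` is good and without
isotropic relation of size `k` (by the theorems of Deligne and Katz this is so, for all large `p`, if the geometric monodromy group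
is a full symplectic or orthogonal group of large rank). Let an ARBITRARY integral point be given, whose coordinates have at most `K`
digits in base `b`. Choose for each coordinate `r` of the `K` positions and replace the digits at these positions by arbitrary other
digits; let `C log K ≤ r ≤ K / 2`. Then for all but a proportion `K ^ (-B)` of the choices the representations `ρ_{ℓ, t}` of the
new point `t` are semisimple **for all `ℓ`**. Here `B` is arbitrary, and `C` depends only on the family, `P`, `κ`, `θ`, `b` and `B`, but not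
on the point or on the new digits.

The new points are a very thin set: `K ^ O(log K)` points, if `r = O(log K)`, while the box contains `b ^ (d K)` points; the
theorem on almost all integral points of a box says nothing about them.

The proof combines the criterion of the starting file `RelationFreeFrobenius` (Kronecker-Weber and the `ℓ`-adic six exponentials
theorem) at four primes with a law for the residues, modulo many small primes, of vectors of which few digits are changed
(`Pool.Agent.Q328.VD`, from the law of helper894 for one integer). The definition of a family is that of helper128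
(`MP_8f1292_ag.AlmostAllMembers`), as is the deduction of semisimplicity from four primes.
-/

set_option autoImplicit false

namespace Pool.Agent.Results.MP_8f1292_ag.FewDigitMembers

open NumberField IsDedekindDomain Polynomial
open Pool.Agent.Results.MP_8f1292_ag.RelationFreeFrobenius

/-- The residue class modulo `p` of an integral point `t`. -/
def red {d : ℕ} (p : ℕ) (t : Fin d → ℤ) : Fin d → ZMod p := fun j => (t j : ZMod p)

section
variable (F E : Type) [Field F] [NumberField F] [Field E] [NumberField E] (ι : E →+* ℂ)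
  (d n : ℕ) (w : ℤ) (J : Type) (ℓ : J → ℕ) [∀ j, Fact (ℓ j).Prime] (𝕂 : J → Type)
  [∀ j, NormedField (𝕂 j)] [∀ j, NormedAlgebra ℚ_[ℓ j] (𝕂 j)] (τ : ∀ j, E →+* 𝕂 j)

/-- A family of motives over the number field `F` with `d` integral parameters: for every integral
point `t` in a set `U ⊆ ℤ^d` and every `j ∈ J` a continuous polarized representation `ρ j t` of the
absolute Galois group of `F` of dimension `n` over the field `𝕂 j` of characteristic zero which contains the
`ℓ j`-adic numbers (`J` can be the set of all prime numbers, or of all finite places of `E`). For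
every prime number `p` there is a set `good p` of residue classes modulo `p`; the integral points in
these classes belong to `U`, and at the places `v` above `p` their representations are good for
all `ℓ j ≠ p`, pure of weight `w`, with a Frobenius polynomial `P p x v` which depends only on the
residue class `x` modulo `p` of the integral point (and not on `j`). -/
structure Family where
  U : Set (Fin d → ℤ)
  good : ∀ p : ℕ, Set (Fin d → ZMod p)
  mem : ∀ p : ℕ, p.Prime → ∀ t : Fin d → ℤ, red p t ∈ good p → t ∈ U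
  P : ∀ p : ℕ, (Fin d → ZMod p) → HeightOneSpectrum (𝓞 F) → E[X]
  ρ : ∀ j : J, (Fin d → ℤ) → (Gal(AlgebraicClosure F/F) →* GL (Fin n) (𝕂 j))
  continuous : ∀ j, ∀ t ∈ U, Continuous (ρ j t)
  polarized : ∀ j, ∀ t ∈ U, Polarized (ℓ j) (ρ j t) w
  goodAt : ∀ p : ℕ, p.Prime → ∀ j, p ≠ ℓ j → ∀ t : Fin d → ℤ, red p t ∈ good p →
    ∀ v : HeightOneSpectrum (𝓞 F), Above v p → GoodAt (ρ j t) (τ j) ι w v (P p (red p t) v)

end

/-- The integers `s i * N i` (`s i` is a sign), after the digits of `N i` in base `b` at the positions in `S i` have been replaced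
by the digits `f i`. -/
def changed (b K : ℕ) {d : ℕ} (s : Fin d → ℤ) (N : Fin d → ℕ) (f : Fin d → ℕ → ℕ) (S : Fin d → Finset ℕ) : Fin d → ℤ :=
  fun i => s i * ((∑ j ∈ Finset.range K, (if j ∈ S i then f i j else N i / b ^ j % b) * b ^ j : ℕ) : ℤ)

/-- `s i` are signs, `N i` has at most `K` digits, and `f i j` is a digit different from the digit number `j` of `N i`. -/
def Admissible (b K : ℕ) {d : ℕ} (s : Fin d → ℤ) (N : Fin d → ℕ) (f : Fin d → ℕ → ℕ) : Prop :=
  (∀ i, s i = 1 ∨ s i = -1) ∧ (∀ i, N i < b ^ K) ∧ ∀ i j, f i j < b ∧ f i j ≠ N i / b ^ j % b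

/-- The choices of `r` of the `K` positions for each of `d` integers; their number is `C(K, r) ^ d`. -/
def choices (d r K : ℕ) : Finset (Fin d → Finset ℕ) :=
  Fintype.piFinset (fun _ => Finset.powersetCard r (Finset.range K))

section
variable {F E : Type} [Field F] [NumberField F] [Field E] [NumberField E] {ι : E →+* ℂ}
  {d n : ℕ} {w : ℤ} {J : Type} {ℓ : J → ℕ} [∀ j, Fact (ℓ j).Prime] {𝕂 : J → Type}
  [∀ j, NormedField (𝕂 j)] [∀ j, NormedAlgebra ℚ_[ℓ j] (𝕂 j)] {τ : ∀ j, E →+* 𝕂 j}

/-- The good residue classes modulo `p` whose Frobenius polynomials at the places above `p` have no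
isotropic relation of size `k`. -/
def relationFree (A : Family F E ι d n w J ℓ 𝕂 τ) (k p : ℕ) : Set (Fin d → ZMod p) :=
  {x | x ∈ A.good p ∧ ¬ IsotropicRelation (A.P p x) ι w p k}

omit [NumberField F] in
/-- there is only one prime number below a place -/
lemma above_unique {v : HeightOneSpectrum (𝓞 F)} {p p' : ℕ} (hp : p.Prime) (hp' : p'.Prime)
    (h : Above v p) (h' : Above v p') : p = p' := by
  by_contra hne
  have hc : IsCoprime (p : ℤ) (p' : ℤ) := Nat.isCoprime_iff_coprime.2 ((Nat.coprime_primes hp hp').2 hne)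
  obtain ⟨a, b, hab⟩ := hc
  apply v.isPrime.ne_top
  rw [Ideal.eq_top_iff_one]
  have h1 : (a : 𝓞 F) * (p : 𝓞 F) + (b : 𝓞 F) * (p' : 𝓞 F) = 1 := by
    have h2 := congrArg (Int.cast : ℤ → 𝓞 F) hab
    push_cast at h2
    exact h2
  rw [← h1]
  exact v.asIdeal.add_mem (v.asIdeal.mul_mem_left _ h) (v.asIdeal.mul_mem_left _ h')

lemma isotropic_congr {P P' : HeightOneSpectrum (𝓞 F) → E[X]} {p k : ℕ}
    (h : ∀ v, Above v p → P v = P' v) (hP : IsotropicRelation P ι w p k) :
    IsotropicRelation P' ι w p k := by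
  obtain ⟨A, hA, hA'⟩ := hP
  refine ⟨A, hA, fun v hv => ?_⟩
  rw [← h v hv]
  exact hA' v hv

/-- Four good relation free primes suffice. -/
lemma semisimple_of_many (hn : 2 ≤ n) [∀ j, FiniteDimensional ℚ_[ℓ j] (𝕂 j)]
    (A : Family F E ι d n w J ℓ 𝕂 τ) (t : Fin d → ℤ) (Q : Set ℕ) (hQ : Q.Finite)
    (hprime : ∀ p ∈ Q, p.Prime ∧ UnramifiedIn F p)
    (hmany : ∀ k, 0 < k → 2 * k ≤ n → 3 < Set.ncard {p : ℕ | p ∈ Q ∧ red p t ∈ relationFree A k p}) :
    t ∈ A.U ∧ ∀ j, Semisimple (A.ρ j t) := by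
  classical
  have hfin : ∀ k, {p : ℕ | p ∈ Q ∧ red p t ∈ relationFree A k p}.Finite := fun k =>
    hQ.subset fun p hp => hp.1
  constructor
  · have h1 := hmany 1 one_pos (by omega)
    obtain ⟨p, hp⟩ := (Set.ncard_pos (hfin 1)).1 (by omega)
    exact A.mem p (hprime p hp.1).1 t hp.2.1
  · intro j
    set T : Set ℕ := {p | p ≠ ℓ j ∧ ∃ k, 0 < k ∧ 2 * k ≤ n ∧ p ∈ Q ∧
      red p t ∈ relationFree A k p} with hT
    have hTfin : T.Finite := hQ.subset fun p hp => by
      obtain ⟨_, k, _, _, h, _⟩ := hp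
      exact h
    have hsub : ∀ k, 0 < k → 2 * k ≤ n →
        {p : ℕ | p ∈ Q ∧ red p t ∈ relationFree A k p} \ {ℓ j} ⊆ T := by
      rintro k hk hk2 p ⟨hp, hpl⟩
      exact ⟨hpl, k, hk, hk2, hp.1, hp.2⟩
    have hcard : ∀ k, 0 < k → 2 * k ≤ n →
        3 ≤ ({p : ℕ | p ∈ Q ∧ red p t ∈ relationFree A k p} \ {ℓ j}).ncard := by
      intro k hk hk2
      have h1 := hmany k hk hk2
      have h3 := Set.ncard_le_ncard_sdiff_add_ncard
        {p : ℕ | p ∈ Q ∧ red p t ∈ relationFree A k p} {ℓ j} (Set.finite_singleton _)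
      rw [Set.ncard_singleton] at h3
      omega
    have hTU : t ∈ A.U := by
      have h1 := hmany 1 one_pos (by omega)
      obtain ⟨p, hp⟩ := (Set.ncard_pos (hfin 1)).1 (by omega)
      exact A.mem p (hprime p hp.1).1 t hp.2.1
    have hTp : ∀ p ∈ T, p.Prime ∧ p ≠ ℓ j ∧ UnramifiedIn F p ∧ red p t ∈ A.good p := by
      rintro p ⟨h1, k, _, _, h2, h3⟩
      exact ⟨(hprime p h2).1, h1, (hprime p h2).2, h3.1⟩
    set Pt : HeightOneSpectrum (𝓞 F) → E[X] := fun v =>
      if h : ∃ p, p ∈ T ∧ Above v p then A.P h.choose (red h.choose t) v else 0 with hPt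
    have hPt' : ∀ p ∈ T, ∀ v, Above v p → Pt v = A.P p (red p t) v := by
      intro p hp v hv
      have h : ∃ p, p ∈ T ∧ Above v p := ⟨p, hp, hv⟩
      have h1 : h.choose = p :=
        above_unique (hTp _ h.choose_spec.1).1 (hTp p hp).1 h.choose_spec.2 hv
      rw [hPt]
      simp only [dif_pos h]
      rw [h1]
    refine RelationFreeFrobenius.result (ℓ j) (A.ρ j t) (A.continuous j t hTU) (τ j) ι w Pt T
      ?_ (fun p hp => ⟨(hTp p hp).1, (hTp p hp).2.1, (hTp p hp).2.2.1⟩) ?_
      (A.polarized j t hTU) (Or.inl ?_)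
    · have h1 : 3 ≤ T.ncard := (hcard 1 one_pos (by omega)).trans
        (Set.ncard_le_ncard (hsub 1 one_pos (by omega)) hTfin)
      rw [← Set.Finite.cast_ncard_eq hTfin]
      exact_mod_cast h1
    · intro p hp v hv
      rw [hPt' p hp v hv]
      exact A.goodAt p (hTp p hp).1 j (hTp p hp).2.1 t (hTp p hp).2.2.2 v hv
    · intro k hk hk2
      have h1 := hcard k hk hk2
      have h2 : 0 < ({p : ℕ | p ∈ Q ∧ red p t ∈ relationFree A k p} \ {ℓ j}).ncard :=
        lt_of_lt_of_le (by norm_num) h1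
      obtain ⟨p, hp⟩ := (Set.ncard_pos (hfin k).sdiff).1 h2
      refine ⟨p, hsub k hk hk2 hp, fun hrel => hp.1.2.2 ?_⟩
      exact isotropic_congr (hPt' p (hsub k hk hk2 hp)) hrel

/-- **Semisimplicity for all `ℓ` at once near every integral point, few digits being changed.** -/
theorem result {F E : Type} [Field F] [NumberField F] [Field E] [NumberField E] {ι : E →+* ℂ}
    {d n : ℕ} (hn : 2 ≤ n) {w : ℤ} {J : Type} {ℓ : J → ℕ} [∀ j, Fact (ℓ j).Prime] {𝕂 : J → Type}
    [∀ j, NormedField (𝕂 j)] [∀ j, NormedAlgebra ℚ_[ℓ j] (𝕂 j)]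
    [∀ j, FiniteDimensional ℚ_[ℓ j] (𝕂 j)] {τ : ∀ j, E →+* 𝕂 j}
    (A : Family F E ι d n w J ℓ 𝕂 τ) (P : ℕ → Prop) (κ θ : ℝ) (hκ : 0 < κ) (hθ : 0 < θ)
    (hP : ∀ p, P p → p.Prime ∧ UnramifiedIn F p ∧
        ∀ k, 0 < k → 2 * k ≤ n → κ * (p : ℝ) ^ d ≤ ((relationFree A k p).ncard : ℝ))
    (hcount : ∃ y₀ : ℕ, ∀ y : ℕ, y₀ ≤ y → (y : ℝ) ^ θ ≤ (({p : ℕ | P p ∧ p ≤ y}).ncard : ℝ)) :
    ∀ (b : ℕ), 2 ≤ b → ∀ B : ℝ, 0 < B →
      ∃ C : ℝ, 0 < C ∧ ∃ K₀ : ℕ, ∀ K : ℕ, K₀ ≤ K → ∀ r : ℕ, C * Real.log K ≤ r → 2 * r ≤ K →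
      -- every integral point with coordinates with at most `K` digits and all new digits
      ∀ (s : Fin d → ℤ) (N : Fin d → ℕ) (f : Fin d → ℕ → ℕ), Admissible b K s N f →
        ∃ Ex ⊆ choices d r K, (Ex.card : ℝ) ≤ (K : ℝ) ^ (-B) * (K.choose r : ℝ) ^ d ∧
          ∀ S ∈ choices d r K, S ∉ Ex →
            changed b K s N f S ∈ A.U ∧ ∀ j, Semisimple (A.ρ j (changed b K s N f S)) := by
  classical
  intro b hb B hB
  have hex : ∀ k ∈ Finset.Icc 1 (n / 2), ∃ C : ℝ, 0 < C ∧ ∃ K₀ : ℕ, ∀ K : ℕ, K₀ ≤ K → ∀ r : ℕ, C * Real.log K ≤ r → 2 * r ≤ K →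
      ∀ N : Fin d → ℕ, (∀ i, N i < b ^ K) → ∀ s : Fin d → ℤ, (∀ i, s i = 1 ∨ s i = -1) →
      ∀ f : Fin d → ℕ → ℕ, (∀ i j, f i j < b ∧ f i j ≠ N i / b ^ j % b) →
      (((choices d r K).filter (fun S => Set.ncard {p : ℕ | P p ∧ (p : ℝ) ≤ (K : ℝ) ^ (1 : ℝ) ∧
        red p (changed b K s N f S) ∈ relationFree A k p} ≤ 3)).card : ℝ) ≤
        (K : ℝ) ^ (-(B + 1)) * (K.choose r : ℝ) ^ d := by
    intro k hk
    rw [Finset.mem_Icc] at hk
    obtain ⟨C, hC, K₀, h⟩ := Pool.Agent.Q328.VD.many_fin 3 b hb (B + 1) 1 κ θ (by linarith) one_pos hκ hθ d P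
      (fun p => relationFree A k p) (fun p hp => ⟨(hP p hp).1, by
        have := (hP p hp).2.2 k (by omega) (by omega)
        rwa [← Nat.card_coe_set_eq] at this⟩) hcount
    refine ⟨C, hC, K₀, fun K hK r hr hrK N hN s hs f hf => ?_⟩
    exact h K hK r hr hrK N hN s hs f hf
  choose! C hC K₀ h using hex
  refine ⟨1 + ∑ k ∈ Finset.Icc 1 (n / 2), C k, ?_, 1 + n + ∑ k ∈ Finset.Icc 1 (n / 2), K₀ k, fun K hK r hr hrK s N f hA => ?_⟩
  · have : 0 ≤ ∑ k ∈ Finset.Icc 1 (n / 2), C k := Finset.sum_nonneg fun k hk => (hC k hk).le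
    linarith
  have hK1 : (1 : ℝ) ≤ K := by exact_mod_cast (by omega : 1 ≤ K)
  have hK0 : (0 : ℝ) < K := by linarith
  have hlog : 0 ≤ Real.log K := Real.log_nonneg hK1
  obtain ⟨bad, hbad⟩ : ∃ bad : ℕ → Finset (Fin d → Finset ℕ), bad = fun k =>
      (choices d r K).filter (fun S => Set.ncard {p : ℕ | P p ∧ (p : ℝ) ≤ (K : ℝ) ^ (1 : ℝ) ∧
        red p (changed b K s N f S) ∈ relationFree A k p} ≤ 3) := ⟨_, rfl⟩
  have hbadc : ∀ k ∈ Finset.Icc 1 (n / 2), ((bad k).card : ℝ) ≤ (K : ℝ) ^ (-(B + 1)) * (K.choose r : ℝ) ^ d := by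
    intro k hk
    rw [hbad]
    refine h k hk K ?_ r ?_ hrK N hA.2.1 s hA.1 f hA.2.2
    · have h1 := Finset.single_le_sum (f := K₀) (fun i _ => Nat.zero_le _) hk
      omega
    · refine le_trans (mul_le_mul_of_nonneg_right ?_ hlog) hr
      have h1 := Finset.single_le_sum (f := C) (fun i hi => (hC i hi).le) hk
      linarith
  refine ⟨(Finset.Icc 1 (n / 2)).biUnion bad, ?_, ?_, ?_⟩
  · refine Finset.biUnion_subset.2 fun k _ => ?_
    rw [hbad]
    exact Finset.filter_subset _ _
  · have h1 : (((Finset.Icc 1 (n / 2)).biUnion bad).card : ℝ) ≤ ∑ k ∈ Finset.Icc 1 (n / 2), ((bad k).card : ℝ) := by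
      exact_mod_cast Finset.card_biUnion_le
    refine h1.trans ((Finset.sum_le_sum hbadc).trans ?_)
    rw [Finset.sum_const, Nat.card_Icc, nsmul_eq_mul, Nat.add_sub_cancel, ← mul_assoc]
    refine mul_le_mul_of_nonneg_right ?_ (by positivity)
    have h3 : (K : ℝ) ^ (-B) = K * (K : ℝ) ^ (-(B + 1)) := by
      nth_rw 2 [← Real.rpow_one (K : ℝ)]
      rw [← Real.rpow_add hK0]
      congr 1
      ring
    rw [h3]
    refine mul_le_mul_of_nonneg_right ?_ (by positivity)
    have h4 : n / 2 ≤ K := by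
      have := Nat.div_le_self n 2
      omega
    exact_mod_cast h4
  · intro S hS hS2
    refine semisimple_of_many hn A _ {p : ℕ | P p ∧ (p : ℝ) ≤ (K : ℝ) ^ (1 : ℝ)} ?_ ?_ ?_
    · refine (Set.finite_Iic K).subset fun p hp => ?_
      have h1 := hp.2
      rw [Real.rpow_one] at h1
      exact_mod_cast h1
    · intro p hp
      exact ⟨(hP p hp.1).1, (hP p hp.1).2.1⟩
    · intro k hk hk2
      by_contra hcon
      apply hS2
      rw [Finset.mem_biUnion]
      refine ⟨k, Finset.mem_Icc.2 ⟨hk, by omega⟩, ?_⟩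
      rw [hbad, Finset.mem_filter]
      refine ⟨hS, le_trans (le_of_eq ?_) (not_lt.1 hcon)⟩
      congr 1
      ext p
      simp only [Set.mem_setOf_eq, and_assoc]

end

end Pool.Agent.Results.MP_8f1292_ag.FewDigitMembers
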