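import Pool.Agent.Q148.LI.Gal

/-!
# The Grothendieck-Serre conjecture is decided by one weight in the cohomology of the cubics `T = 1`

Let `k` be a number field and `p` a prime number (`ℓ = p` in the notations of this file). For a separated
scheme `X` of finite type over `k` let `D.G w j X = Gr^W_w H^j_c(X ⊗ k̄, ℚ_p)` be the part of weight `w` of
the `p`-adic cohomology with compact supports, a representation of the absolute Galois group of `k`. The
weights of `H^j_c(X)` are at most `j`; for smooth projective `Y` one has `D.G j j Y = H^j(Y ⊗ k̄, ℚ_p)`, so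
that `Q1 D` is question Q1 for `k` and `p` (by the remark of the problem file on Grothendieck motives).

The hypersurfaces `T(x, y, z) = 1` of the trilinear forms `T` over `k` (in any number of variables `x_i`,
`y_j`, `z_l`) are smooth and affine. The part of weight `j - 1` of `H^j_c(T = 1)` is dual to the part of
weight `i + 1` of `H^i(T = 1)`, `i = 2 dim - j`, up to a Tate twist, and this is the part next to the
smallest possible weight `i`.

**Theorem.** The following are equivalent:

1. the representations `H^j(Y ⊗ k̄, ℚ_p)` are semisimple for all smooth projective `Y` over `k` and all `j`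
   (question Q1 for `k` and `p`);
2. all parts `Gr^W_w H^j_c(X)` are semisimple, for all separated schemes `X` of finite type over `k`;
3. the single parts `Gr^W_{j-1} H^j_c(T = 1)` are semisimple, for all `j` and all trilinear forms `T` over
   `k`.

If `k = ℚ`, it is enough in (3) to consider the cubics `∑_{(i, j, l) ∈ H} x_i y_j z_l = 1` without
coefficients, for all finite sets `H` of triples. (Question Q1 for all number fields is equivalent to the
one for `ℚ`: a variety over `F` is a variety over `ℚ`, and its cohomology is induced.)

Semisimple representations are not closed under extensions; the reduction uses only that they are closed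
under subrepresentations.
-/

set_option autoImplicit false

open CategoryTheory AlgebraicGeometry Pool.Agent.Y116.UV Pool.Agent.Z125.UN
  Pool.Agent.Q193.LT Pool.Agent.Q148.LI

universe w

namespace Pool.Agent.Results.MP_8f1292_ag.OneWeightOfCubics

variable {k : Type} [Field k] {ℓ : ℕ} [Fact ℓ.Prime]

/-- Question Q1 for `k` and `ℓ`. -/
def Q1 (D : WtData k (GRep.{w} k ℓ)) : Prop :=
  ∀ Y : Sch k, SmoothProj Y → ∀ j, SS (D.G j j Y)

/-- All parts of all schemes are semisimple. -/
def AllParts (D : WtData k (GRep.{w} k ℓ)) : Prop :=
  ∀ X : Sch k, FT True X → ∀ w j, SS (D.G w j X)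

/-- The part of weight `j - 1` of `H^j_c(X)` is semisimple, for all `j`. -/
def OnePart (D : WtData k (GRep.{w} k ℓ)) (X : Sch k) : Prop :=
  ∀ j, SS (D.G (j - 1) j X)

/-- **One weight decides.** See the explanations above. -/
theorem result [NumberField k] {D : WtData k (GRep.{w} k ℓ)}
    {χ : Field.absoluteGaloisGroup k →* ℚ_[ℓ]ˣ} (h : IsGal D χ) :
    List.TFAE [
      Q1 D,
      AllParts D,
      ∀ (a b c : ℕ) (T : Fin a → Fin b → Fin c → k), OnePart D (hypS T)] ∧
    (Frac k → (Q1 D ↔
      ∀ (a b c : ℕ) (H : Finset (Fin a × Fin b × Fin c)), OnePart D (tripS k H))) := by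
  have h12 : Q1 D → AllParts D := h.subquotient
  refine ⟨?_, fun hk => ⟨fun h1 a b c H => ?_, fun h1 => ?_⟩⟩
  · tfae_have 1 → 2 := h12
    tfae_have 2 → 3 := fun h1 a b c T j => h1 _ (ft_aff True) _ _
    tfae_have 3 → 1 := fun h1 => one_piece h.wt h.sub h.device h1
    tfae_finish
  · exact fun j => h12 h1 _ (ft_aff True) _ _
  · exact one_piece_graph hk h.wt h.sub h.device h1

end Pool.Agent.Results.MP_8f1292_ag.OneWeightOfCubics
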